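import Pool.Agent.Helper63.RC.Defs

/-! RC-6 calculus of `Cx` (MP_4291f1_lc), by helper8. -/

set_option autoImplicit false

namespace Pool.Agent.Helper63.RC

open Matrix Module

section
variable {A : Type*} [Ring A] [Algebra ℂ A]

theorem rc6_mono {W U W' U' : Submodule ℂ A} {s s' : ℕ} (h : Cx W U s) (hW : W' ≤ W) (hU : U ≤ U')
    (hs : s ≤ s') : Cx W' U' s' := by
  obtain ⟨α, β, γ, H⟩ := h
  obtain ⟨t, rfl⟩ := Nat.exists_eq_add_of_le hs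
  refine ⟨Fin.append α 0, Fin.append β 0, Fin.append γ 0, fun f x hx => hU ?_⟩
  have := H f x (hW hx)
  simpa [Fin.sum_univ_add] using this

theorem rc6_mulLeft_dom {W U : Submodule ℂ A} {s : ℕ} (h : Cx W U s) (b : Aˣ) :
    Cx (W.map (LinearMap.mulLeft ℂ (b : A))) U s := by
  obtain ⟨α, β, γ, H⟩ := h
  refine ⟨fun k => (α k).comp (LinearMap.mulRight ℂ (b : A)),
    fun k => (β k).comp (LinearMap.mulLeft ℂ ((b⁻¹ : Aˣ) : A)), γ, ?_⟩
  rintro f _ ⟨x, hx, rfl⟩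
  have := H (f * b) x hx
  simpa [mul_assoc] using this

theorem rc6_mulLeft_cod {W U : Submodule ℂ A} {s : ℕ} (h : Cx W U s) (c : Aˣ) :
    Cx W (U.map (LinearMap.mulLeft ℂ (c : A))) s := by
  obtain ⟨α, β, γ, H⟩ := h
  refine ⟨fun k => (α k).comp (LinearMap.mulLeft ℂ ((c⁻¹ : Aˣ) : A)), β,
    fun k => (c : A) * γ k, ?_⟩
  intro f x hx
  have := H (((c⁻¹ : Aˣ) : A) * f) x hx
  refine ⟨_, this, ?_⟩
  simp only [LinearMap.mulLeft_apply, mul_sub, LinearMap.comp_apply, Finset.mul_sum]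
  rw [mul_assoc, Units.mul_inv_cancel_left]
  congr 1
  refine Finset.sum_congr rfl fun k _ => ?_
  rw [mul_smul_comm]

theorem rc6_sup {W₁ W₂ U : Submodule ℂ A} {s₁ s₂ : ℕ} (h₁ : Cx W₁ U s₁) (h₂ : Cx W₂ U s₂) :
    Cx (W₁ ⊔ W₂) U (s₁ + s₂) := by
  obtain ⟨α₁, β₁, γ₁, H₁⟩ := h₁
  obtain ⟨α₂, β₂, γ₂, H₂⟩ := h₂
  -- the sum map `W₁ × W₂ → W₁ ⊔ W₂`
  let S : (W₁ × W₂) →ₗ[ℂ] ↥(W₁ ⊔ W₂) :=
    LinearMap.codRestrict (W₁ ⊔ W₂) (W₁.subtype.coprod W₂.subtype) (by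
      rintro ⟨x, y⟩
      exact Submodule.add_mem_sup x.2 y.2)
  have hS : LinearMap.range S = ⊤ := by
    rw [LinearMap.range_eq_top]
    rintro ⟨z, hz⟩
    obtain ⟨x, hx, y, hy, rfl⟩ := Submodule.mem_sup.1 hz
    exact ⟨(⟨x, hx⟩, ⟨y, hy⟩), by ext; simp [S]⟩
  obtain ⟨g, hg⟩ := S.exists_rightInverse_of_surjective hS
  -- extensions of the two projections to `A`
  obtain ⟨p₁, hp₁⟩ := LinearMap.exists_extend
    ((W₁.subtype.comp (LinearMap.fst ℂ W₁ W₂)).comp g)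
  obtain ⟨p₂, hp₂⟩ := LinearMap.exists_extend
    ((W₂.subtype.comp (LinearMap.snd ℂ W₁ W₂)).comp g)
  refine ⟨Fin.append α₁ α₂, Fin.append (fun k => (β₁ k).comp p₁) (fun k => (β₂ k).comp p₂),
    Fin.append γ₁ γ₂, fun f x hx => ?_⟩
  have e₁ : p₁ x = ((g ⟨x, hx⟩).1 : A) := by
    have := LinearMap.congr_fun hp₁ ⟨x, hx⟩
    simpa using this
  have e₂ : p₂ x = ((g ⟨x, hx⟩).2 : A) := by
    have := LinearMap.congr_fun hp₂ ⟨x, hx⟩
    simpa using this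
  have e : x = p₁ x + p₂ x := by
    have := congrArg (Subtype.val) (LinearMap.congr_fun hg ⟨x, hx⟩)
    rw [e₁, e₂]
    simpa [S] using this.symm
  have m₁ : p₁ x ∈ W₁ := by rw [e₁]; exact Subtype.property _
  have m₂ : p₂ x ∈ W₂ := by rw [e₂]; exact Subtype.property _
  have h := U.add_mem (H₁ f _ m₁) (H₂ f _ m₂)
  have q : f * x - ∑ k, (Fin.append α₁ α₂ k f *
      Fin.append (fun k => (β₁ k).comp p₁) (fun k => (β₂ k).comp p₂) k x) • Fin.append γ₁ γ₂ k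
      = (f * p₁ x - ∑ k, (α₁ k f * β₁ k (p₁ x)) • γ₁ k)
        + (f * p₂ x - ∑ k, (α₂ k f * β₂ k (p₂ x)) • γ₂ k) := by
    rw [Fin.sum_univ_add]
    simp only [Fin.append_left, Fin.append_right, LinearMap.comp_apply]
    conv_lhs => rw [e, mul_add]
    rw [← e]
    abel
  rw [q]
  exact h

theorem rc6_inf {W U₁ U₂ : Submodule ℂ A} {s₁ s₂ : ℕ} (h₁ : Cx W U₁ s₁) (h₂ : Cx W U₂ s₂) :
    Cx W (U₁ ⊓ U₂) (s₁ + s₂) := by
  obtain ⟨α₁, β₁, γ₁, H₁⟩ := h₁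
  obtain ⟨α₂, β₂, γ₂, H₂⟩ := h₂
  let j : A →ₗ[ℂ] ((A ⧸ U₁) × (A ⧸ U₂)) := U₁.mkQ.prod U₂.mkQ
  have hj : LinearMap.range j.rangeRestrict = ⊤ := LinearMap.range_rangeRestrict j
  obtain ⟨g, hg⟩ := j.rangeRestrict.exists_rightInverse_of_surjective hj
  obtain ⟨L, hL⟩ := LinearMap.exists_extend g
  have key : ∀ a, a - L (j a) ∈ U₁ ⊓ U₂ := by
    intro a
    have h0 : L (j a) = g (j.rangeRestrict a) := by
      have := LinearMap.congr_fun hL (j.rangeRestrict a)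
      simpa using this
    have h1 : j (g (j.rangeRestrict a)) = j a := by
      have := congrArg Subtype.val (LinearMap.congr_fun hg (j.rangeRestrict a))
      simpa using this
    have h2 : j (a - L (j a)) = 0 := by
      rw [map_sub, h0, h1, sub_self]
    have h3 : (U₁.mkQ (a - L (j a)), U₂.mkQ (a - L (j a))) = (0 : (A ⧸ U₁) × (A ⧸ U₂)) := h2
    rw [Prod.mk_eq_zero] at h3
    refine ⟨?_, ?_⟩
    · exact (Submodule.Quotient.mk_eq_zero U₁).1 h3.1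
    · exact (Submodule.Quotient.mk_eq_zero U₂).1 h3.2
  refine ⟨Fin.append α₁ α₂, Fin.append β₁ β₂,
    Fin.append (fun k => L (U₁.mkQ (γ₁ k), 0)) (fun k => L (0, U₂.mkQ (γ₂ k))), ?_⟩
  intro f x hx
  have e₁ : U₁.mkQ (f * x) = ∑ k, (α₁ k f * β₁ k x) • U₁.mkQ (γ₁ k) := by
    have := H₁ f x hx
    rw [← Submodule.ker_mkQ U₁, LinearMap.mem_ker, map_sub, sub_eq_zero] at this
    rw [this]
    simp
  have e₂ : U₂.mkQ (f * x) = ∑ k, (α₂ k f * β₂ k x) • U₂.mkQ (γ₂ k) := by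
    have := H₂ f x hx
    rw [← Submodule.ker_mkQ U₂, LinearMap.mem_ker, map_sub, sub_eq_zero] at this
    rw [this]
    simp
  have e : L (j (f * x)) = ∑ k, (Fin.append α₁ α₂ k f * Fin.append β₁ β₂ k x) •
      Fin.append (fun k => L (U₁.mkQ (γ₁ k), 0)) (fun k => L (0, U₂.mkQ (γ₂ k))) k := by
    rw [Fin.sum_univ_add]
    simp only [Fin.append_left, Fin.append_right]
    have : j (f * x) = ∑ k, (α₁ k f * β₁ k x) • ((U₁.mkQ (γ₁ k), 0) : (A ⧸ U₁) × (A ⧸ U₂))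
        + ∑ k, (α₂ k f * β₂ k x) • ((0, U₂.mkQ (γ₂ k)) : (A ⧸ U₁) × (A ⧸ U₂)) := by
      have : j (f * x) = (U₁.mkQ (f * x), U₂.mkQ (f * x)) := rfl
      rw [this, e₁, e₂]
      ext
      · simp [Prod.fst_sum]
      · simp [Prod.snd_sum]
    rw [this, map_add, map_sum, map_sum]
    simp only [map_smul]
  rw [← e]
  exact key _

theorem rc6_equiv {B : Type*} [Ring B] [Algebra ℂ B] {W U : Submodule ℂ A} {s : ℕ} (h : Cx W U s)
    (e : A ≃ₐ[ℂ] B) :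
    Cx (W.map e.toLinearEquiv.toLinearMap) (U.map e.toLinearEquiv.toLinearMap) s := by
  obtain ⟨α, β, γ, H⟩ := h
  refine ⟨fun k => (α k).comp e.symm.toLinearEquiv.toLinearMap,
    fun k => (β k).comp e.symm.toLinearEquiv.toLinearMap, fun k => e (γ k), ?_⟩
  rintro f _ ⟨x, hx, rfl⟩
  refine ⟨_, H (e.symm f) x hx, ?_⟩
  simp

end

end Pool.Agent.Helper63.RC
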